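import Pool.Agent.Run7.h621.LA.LogFin

/-!
MP_dc0411_ag, Q1: a class of quasi-projective varieties, some hyperbolic and some not, for which
condition (2) holds if and only if there are no nonconstant morphisms from the multiplicative group.
So (1) implies (2) for this class.

Let `K` be an algebraically closed field of characteristic `0`, such as the complex numbers, and let
`k` be a field contained in `K`, such as the rational numbers, with algebraic closure `k'` in `K`.
Let `V` be a closed subset of projective space of dimension `n`, defined over `k'`, of dimension at
most `m`. For `a` in a finite set `A` let `H_a` be a form of degree `d_a` over `K`, not `0`. The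
forms are supposed to satisfy at most `s` independent algebraic conditions over `k`: the ratios of
the coefficients of the `H_a` generate a field of transcendence degree at least `N - s` over `k`,
where `N` is the sum of the `binom (d_a + n) n - 1`, the dimension of the space of parameters. The
conditions can be of any kind, and nothing is supposed on the singularities.

Let `C` be a subset of `A`, let `X'` be the part of `V` where `H_a = 0` for `a` in `C`, let `D` be
the union of the `H_b = 0` for `b` not in `C`, and `X` the complement of `D` in `X'`.

Let `q` be `0`, or such that `|A| + 2 q ≤ s`, `|A| + 4 q ≤ s + 3` and `s ≤ N`, and suppose that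
`2 m + s + 1 ≤ ∑ d_a + |C| + q`. Then the following are equivalent:

(a) each line over `K` in `X'` is contained in `D` or meets `D` in more than two points;

(b) every closed subvariety of `X` of positive dimension is of log general type;

(c) for every nonconstant map from a smooth projective curve of genus `g` to `X'`, whose image is not
contained in `D`, the degree is at most `2 g - 2` plus the number of the points that are mapped to
`D`;

(d) every morphism from the multiplicative group to `X` is constant.

Moreover, there is in any case at most one line over `K` in `X'` that is not contained in `D` and
meets `D` in at most two points, and it is the only closed subvariety of positive dimension of `X`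
that is not of log general type.

If `X` is Brody hyperbolic, then it has property (d), because the exponential function is a
holomorphic map from the complex numbers onto the multiplicative group. So (1) implies (2) for `X`,
and it implies the bound (c) for the degrees of the morphisms from a curve to `X`.

For example, let `V` be the whole space, so that `m = n`. For the complement of a hypersurface of
degree `d` the condition is `2 n + s + 1 ≤ d + q`, and for a hypersurface `X = X'` of degree `d` it
is `2 n + s ≤ d + q`, with `q = 0`, or `1 + 2 q ≤ s` and `1 + 4 q ≤ s + 3`. In both cases `s` can be
about `4 (d - 2 n) / 3`. By the usual dimension counts, complements with bad lines occur if `s` is at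
least `d - 2 n`, and hypersurfaces with lines if `s` is at least `d - 2 n + 3`; so some members of
the class are hyperbolic and some are not.

A closed subvariety of `X` of dimension `w` is given by its function field `L`, and its generic point
`x`, with homogeneous coordinates in `L`. A prime divisor `Q` over its closure has its centre in `D`
if `d_b min_i ord_Q (x_i) < ord_Q (H_b (x))` for some `b` not in `C`; `pord Q x` is the minimum of
the orders `ord_Q (x_i)`. In (c), `L` is the function field of the curve, `pht K x` is the degree and
`canDeg K L` is `2 g - 2`. The morphisms from the multiplicative group to projective space are given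
by polynomials without common zeros outside of `0`.
-/

set_option autoImplicit false

namespace Pool.Agent.Results.MP_dc0411_ag.EquivalenceByLines

open MvPolynomial FF Pool.Agent.W602.GT Pool.Agent.TH145.MG
open Pool.Agent.Run7.h621.LG Pool.Agent.Run7.h621.LA

theorem result {k K : Type} [Field k] [Field K] [IsAlgClosed K] [CharZero K] [Algebra k K]
    {n m s q : ℕ}
    -- a closed subset of projective space, of dimension at most `m`
    (V : Set (MvPolynomial (Fin (n + 1)) (algebraicClosure k K)))
    (hVh : ∀ f ∈ V, ∃ e, f.IsHomogeneous e) (hV : DimLE (algebraicClosure k K) V m)
    -- forms of degrees `d a` that satisfy at most `s` independent conditions over `k`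
    {A : Type} [Fintype A] (d : A → ℕ) (H : A → MvPolynomial (Fin (n + 1)) K)
    (h : ConditionsLE k H d s) (hq : Small n d s q)
    -- the pair
    (C : Finset A) (hnum : 2 * m + s + 1 ≤ ∑ a, d a + C.card + q) :
    ((NoBadLine V H C ↔ AllLogGeneral V H d C) ∧ (NoBadLine V H C ↔ DegreesBounded V H d C) ∧
      (NoBadLine V H C ↔ NoGm V H C)) ∧
    AtMostOne V H C ∧
    ∀ (L : Type) [Field L] [Algebra K L] (w : ℕ) (x : Fin (n + 1) → L), 0 < w →
      Algebra.trdeg K L = w → x ≠ 0 → coords K x = ⊤ → OnPairOf V H C x →
      ((LogGeneralType K L w fun Q => Q ∈ bdry C H d x) ↔
        ¬ ∃ p r, BadLine V H C p r ∧
          ∃ u v : L, ∀ i, x i = u * algebraMap K L (p i) + v * algebraMap K L (r i)) :=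
  ⟨equivalence hVh hV h hq C hnum, atMostOne hV h hq C hnum,
    fun _ _ _ _ _ hw htr hx0 htop hx => gt_iff hVh hV h hq C hnum hw htr hx0 htop hx⟩

end Pool.Agent.Results.MP_dc0411_ag.EquivalenceByLines
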