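import Pool.Agent.Run7.h789.RC.Pm
import Pool.Agent.Run7.h789.RC.En
import Pool.Agent.NH29.GN.Fin3

/-!
MP_dc0411_ag, Q1: all three conditions hold for ALL quasi-projective varieties with a quasi-finite
morphism to the complement of at least `n + 2` ZARISKI-GENERAL hypersurface sections in an ARBITRARY
projective variety `V` of dimension `n`, or to any stratum of this arrangement of hypersurfaces.

Let `V` be a closed subset of the projective space of dimension `M`, of dimension at most `n`; it may
be singular or reducible. Let `q ≥ n + 2`, and let `d_b ≥ 1`, `b < q`, be degrees such that at most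
`2 (q - n) - 2` of them are `1`, or `n + m (n - m) ≤ m ∑ d_b` for `1 ≤ m ≤ n` and the sums over
`q - m - 1` of the `b`. For instance, `q ≥ n + 2` and at most two of the degrees are `1`; or
`q ≥ 2 n + 1`, with any degrees.

THEOREM. There is a nonzero polynomial `Φ` in the coefficients of `q` forms of degrees `d_b` with the
following property. Let `F_b` be forms of degrees `d_b` with `Φ (F) ≠ 0`, let `C` be a set of indices,
and let `V°` be the set of the points of `V` with `F_c = 0` for `c ∈ C` and `F_b ≠ 0` for `b ∉ C`. Let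
`X - D` be a quasi-projective variety, `X` and `D` closed in `P^N × P^M`, `N` arbitrary, with a
quasi-finite morphism to `V°`. Then
(1) `X - D` is Brody hyperbolic: all holomorphic maps from the complex plane to it are constant;
(2) all closed subvarieties of `X - D` of positive dimension, and all varieties with generically
    finite maps to them, are of log general type;
(3) for all smooth curves `B`, projective or not, all points `c` of `B` and all points `v` of `V`, the
    morphisms `f` from `B` to `X - D` such that `f (c)` lies over `v` are finite in number; in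
    particular those with a given value `f (c)`.
So (1), (2) and (3) are equivalent for these varieties, since all three hold.

(3) uses the degrees of the maps (`MP_70ba79_ag.GeneralComplements`): the quotients of powers of the
`F_b (f)` are units on `B`, of bounded degree, with given values at `c`, so there are finitely many;
and for given quotients there are finitely many `f`, as one sees over an ultrapower of the function
field of `B`. Nothing is assumed about isotriviality or the closure of `X - D`.

The definitions `BiSet`, `BiSet.Mem` (`Pool/Agent/W602/Cov/RDefs.lean`), `QMem`, `QEntire`, `Norm`,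
`CentreIn` (`Pool/Agent/TH152/HY/QDefs.lean`), `LogGeneralType` (`Pool/Agent/W602/GT/Defs.lean`),
`Place`, `IsFF` (function fields of one variable and their places) are used.
-/

set_option autoImplicit false

namespace Pool.Agent.Results.MP_dc0411_ag.GeneralComplements

open MvPolynomial FF
open Pool.Agent.W602.Cov.R (BiSet)
open Pool.Agent.TH152.HY (QMem QEntire Norm CentreIn)
open Pool.Agent.W602.GT (LogGeneralType)
open scoped LinearAlgebra.Projectivization

/-- The closed subset of the projective space of dimension `M` given by the forms in `V` has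
dimension at most `n`: there are `n + 1` linear forms without common zero on it. -/
def DimLE {M : ℕ} (V : Set (MvPolynomial (Fin (M + 1)) ℂ)) (n : ℕ) : Prop :=
  ∃ ℓ : Fin (n + 1) → MvPolynomial (Fin (M + 1)) ℂ, (∀ j, (ℓ j).IsHomogeneous 1) ∧
    ∀ y : Fin (M + 1) → ℂ, (∀ H ∈ V, eval y H = 0) → (∀ j, eval y (ℓ j) = 0) → y = 0

/-- The numerical condition on the degrees. -/
def Numeric (n : ℕ) {q : ℕ} (d : Fin q → ℕ) : Prop :=
  n + 2 ≤ q ∧ (∀ b, 1 ≤ d b) ∧ (((Finset.univ.filter fun b => d b = 1).card + 2 ≤ 2 * (q - n)) ∨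
    ∀ m, 1 ≤ m → m ≤ n → ∀ B : Finset (Fin q), B.card + m + 1 = q →
      n + m * (n - m) ≤ m * ∑ b ∈ B, d b)

/-- The indices of the coefficients of `q` forms of degrees `d i` in `M + 1` variables. -/
abbrev Index (M : ℕ) {q : ℕ} (d : Fin q → ℕ) : Type :=
  (i : Fin q) × {β : Fin (M + 1) →₀ ℕ // β.degree = d i}

/-- `F` is a family of forms of degrees `d i`, and `Φ (F) ≠ 0`. -/
def General {M q : ℕ} {d : Fin q → ℕ} (Φ : MvPolynomial (Index M d) ℂ)
    (F : Fin q → MvPolynomial (Fin (M + 1)) ℂ) : Prop :=
  (∀ i, (F i).IsHomogeneous (d i)) ∧ eval (fun s : Index M d => coeff s.2.1 (F s.1)) Φ ≠ 0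

/-- The field generated by the ratios of the coordinates of `x`. -/
noncomputable def ratios {m : ℕ} {K : Type} [Field K] [Algebra ℂ K] (x : Fin (m + 1) → K) :
    IntermediateField ℂ K :=
  IntermediateField.adjoin ℂ {z | ∃ i j, x j ≠ 0 ∧ z = x i / x j}

section

variable {N M : ℕ}

/-- `X` lies over `V`, and `X - D` lies over the stratum of the points with `F_c = 0` for `c ∈ C` and
`F_b ≠ 0` for `b ∉ C`. -/
def OverStratum {q : ℕ} (X D : BiSet N M) (V : Set (MvPolynomial (Fin (M + 1)) ℂ))
    (F : Fin q → MvPolynomial (Fin (M + 1)) ℂ) (C : Finset (Fin q)) : Prop :=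
  (∀ (u : Fin (N + 1) → ℂ) (v : Fin (M + 1) → ℂ), X.Mem u v → ∀ H ∈ V, eval v H = 0) ∧
    ∀ u v, QMem X D u v → (∀ c ∈ C, eval v (F c) = 0) ∧ ∀ b, b ∉ C → eval v (F b) ≠ 0

/-- The projection from `X - D` to the second factor is quasi-finite: the residue field of each point
of `X - D` is algebraic over that of its image. -/
def QuasiFinite (X D : BiSet N M) : Prop :=
  ∀ (L : Type) [Field L] [Algebra ℂ L] (a : Fin (N + 1) → L) (x : Fin (M + 1) → L),
    X.Mem a x → ¬ D.Mem a x → ∀ i j, IsAlgebraic (ratios x) (a i / a j)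

/-- Condition (1): `X - D` is Brody hyperbolic. -/
def Brody (X D : BiSet N M) : Prop := ∀ u v, ¬ QEntire X D u v

/-- Condition (2): all subvarieties of positive dimension `w` of `X - D`, and all varieties with
generically finite maps to them, are of log general type. The variety is given by its function field
`L` and the coordinates `a`, `x` of the image of its generic point; the boundary consists of the
places with centre in `D`. -/
def Subvarieties (X D : BiSet N M) : Prop :=
  ∀ (L : Type) [Field L] [Algebra ℂ L] (a : Fin (N + 1) → L) (x : Fin (M + 1) → L) (w : ℕ),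
    X.Mem a x → ¬ D.Mem a x → Algebra.IsAlgebraic ↥(ratios a ⊔ ratios x) L →
    Algebra.trdeg ℂ L = w → 0 < w → LogGeneralType ℂ L w (CentreIn D a x)

/-- The value at the place `P` of the point `x` of the projective space over `L` is `v`. -/
def ValueAt {L : Type} [Field L] [Algebra ℂ L] (P : Place ℂ L) (x : Fin (M + 1) → L)
    (v : Fin (M + 1) → ℂ) : Prop :=
  ∀ c : ℤ, Norm P x c → ∀ i j, algebraMap ℂ L (v j) * x i = algebraMap ℂ L (v i) * x j ∨
    c < P.ord (algebraMap ℂ L (v j) * x i - algebraMap ℂ L (v i) * x j)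

/-- Condition (3): let `B` be the curve with function field `L`, without the finite set `S` of points
(which may be empty), and let `c` be a point of `B`. The morphisms from `B` to `X - D` which map `c`
to a point over `v` are finite in number. -/
def PointedMaps (X D : BiSet N M) : Prop :=
  ∀ (L : Type) [Field L] [Algebra ℂ L] [IsFF ℂ L] (S : Finset (Place ℂ L)) (c : Place ℂ L),
    c ∉ S → ∀ v : Fin (M + 1) → ℂ, v ≠ 0 →
    {p : ℙ L (Fin (N + 1) → L) × ℙ L (Fin (M + 1) → L) |
      ∃ (a : Fin (N + 1) → L) (x : Fin (M + 1) → L) (ha : a ≠ 0) (hx : x ≠ 0),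
        p = (Projectivization.mk L a ha, Projectivization.mk L x hx) ∧ X.Mem a x ∧
        (∀ P, P ∉ S → ¬ CentreIn D a x P) ∧ ValueAt c x v}.Finite

end

section Proof

open Pool.Agent.NH29.GN (Idx Mon fv val)

theorem fv_eq {K : Type} [Field K] [Algebra ℂ K] {M q : ℕ} {d : Fin q → ℕ}
    {F : Fin q → MvPolynomial (Fin (M + 1)) ℂ} (hF : ∀ i, (F i).IsHomogeneous (d i))
    (x : Fin (M + 1) → K) (b : Fin q) :
    fv (K := ℂ) (L := K) (fun s : Idx M d => coeff s.2.1 (F s.1)) x b = aeval x (F b) := by
  classical
  rw [aeval_def]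
  exact (Pool.Agent.NH29.GN.Stc.eval₂_form (algebraMap ℂ K) x (hF b)).symm

theorem num2_of {n q : ℕ} {d : Fin q → ℕ} (h : Numeric n d) (C : Finset (Fin q))
    (hC : C ≠ Finset.univ) : Pool.Agent.NH29.GN.Num2 n d C := by
  obtain ⟨h1, h2, h3 | h3⟩ := h
  · exact Pool.Agent.NH29.GN.Fn.num_of_few h2 h1 h3 C hC
  · exact Pool.Agent.NH29.GN.Fn.num_of_sum h1 h3 C hC

theorem val_of {M : ℕ} {L : Type} [Field L] [Algebra ℂ L] {P : Place ℂ L} {x : Fin (M + 1) → L}
    (hx : x ≠ 0) {v : Fin (M + 1) → ℂ} (h : ValueAt P x v) :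
    Pool.Agent.Run7.h789.RC.Val P x v := by
  intro i j
  rcases h _ (Pool.Agent.Run7.h789.RC.norm_eq P hx) i j with h1 | h1
  · exact Or.inl (sub_eq_zero.2 h1)
  · exact Or.inr h1

end Proof

/-- **All three conditions hold for the varieties which are quasi-finite over the strata of
Zariski-general arrangements of hypersurfaces.** -/
theorem result {M n q : ℕ} {d : Fin q → ℕ} (hd : Numeric n d)
    (V : Set (MvPolynomial (Fin (M + 1)) ℂ)) (hV : ∀ H ∈ V, ∃ e, H.IsHomogeneous e)
    (hdim : DimLE V n) :
    ∃ Φ : MvPolynomial (Index M d) ℂ, Φ ≠ 0 ∧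
      ∀ F : Fin q → MvPolynomial (Fin (M + 1)) ℂ, General Φ F →
      ∀ (N : ℕ) (X D : BiSet N M) (C : Finset (Fin q)), OverStratum X D V F C →
        QuasiFinite X D → Brody X D ∧ Subvarieties X D ∧ PointedMaps X D := by
  classical
  obtain ⟨ℓ, hℓ, hZ⟩ := hdim
  obtain ⟨r, rfl⟩ : ∃ r, q = r + 1 := ⟨q - 1, by have := hd.1; omega⟩
  have hN := Pool.Agent.NH29.GN.Fn.noZero_of_points (K := ℂ) hZ
  have hq : n + 1 ≤ r + 1 := le_trans (Nat.le_succ _) hd.1
  obtain ⟨B, ι, Φ₁, h1, h2⟩ := Pool.Agent.Run7.h789.RC.exists_sys (d := d) hV hℓ hN hq hd.2.1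
    (num2_of hd)
  obtain ⟨Φ₂, h3, h4⟩ := Pool.Agent.Run7.h789.RC.pointed (d := d) hV hℓ hN hq hd.2.1 (num2_of hd)
  refine ⟨Φ₁ * Φ₂, mul_ne_zero h1 h3, fun F hF N X D C hO hqf => ?_⟩
  have hF2 := hF.2
  rw [map_mul, mul_ne_zero_iff] at hF2
  obtain ⟨F', S⟩ := h2 (fun s => coeff s.2.1 (F s.1)) hF2.1
  have hO' : Pool.Agent.Run7.h789.RC.OverStratum X D
      (fun s : Pool.Agent.NH29.GN.Idx M d => coeff s.2.1 (F s.1)) C := by
    intro u v huv
    obtain ⟨h5, h6⟩ := hO.2 u v huv
    refine ⟨fun c hc => ?_, fun b hb => ?_⟩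
    · rw [fv_eq hF.1]
      exact h5 c hc
    · rw [fv_eq hF.1]
      exact h6 b hb
  have hR := Pool.Agent.Run7.h789.RC.ram_of_stratum hO' (Run7.h34.UG.mm r B)
  refine ⟨?_, ?_, ?_⟩
  · intro u v huv
    have hv := S.entire hO.1 hR huv.diffu huv.diffv huv.mem
    have hu := Pool.Agent.Run7.h789.RC.qf_entire hqf huv.diffu huv.diffv huv.mem hv
    obtain ⟨z, z', h5 | h5⟩ := huv.nonconst
    · obtain ⟨s, hs⟩ := hu z z'
      exact h5 s hs
    · obtain ⟨s, hs⟩ := hv z z'
      exact h5 s hs
  · intro L _ _ a x w hax hDm halg htr hw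
    refine S.lgt hO.1 hR hax hw htr ?_
    have h6 : ratios a ⊔ ratios x ≤
        (algebraicClosure (ratios x) L).restrictScalars ℂ := by
      refine sup_le ?_ ?_
      · unfold ratios
        rw [IntermediateField.adjoin_le_iff]
        rintro _ ⟨i, j, -, rfl⟩
        exact mem_algebraicClosure_iff.2 (hqf L a x hax hDm i j)
      · intro z hz
        exact mem_algebraicClosure_iff.2
          (isAlgebraic_algebraMap (R := ratios x) (A := L) (⟨z, hz⟩ : ratios x))
    have h7 : Algebra.IsAlgebraic (algebraicClosure (ratios x) L) L := by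
      refine ⟨fun z => ?_⟩
      obtain ⟨p, hp, hpz⟩ := halg.isAlgebraic z
      let f : ↥(ratios a ⊔ ratios x) →+* algebraicClosure (ratios x) L :=
        (IntermediateField.inclusion h6).toRingHom
      refine ⟨p.map f, ?_, ?_⟩
      · rw [Ne, Polynomial.map_eq_zero_iff f.injective]
        exact hp
      · rw [Polynomial.aeval_def, Polynomial.eval₂_map]
        rw [Polynomial.aeval_def] at hpz
        exact hpz
    exact Algebra.IsAlgebraic.trans (ratios x) (algebraicClosure (ratios x) L) L
  · intro L _ _ _ T c hc v hv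
    refine (h4 _ hF2.2 N X D C hO.1 hO' hqf L T c hc v hv).subset ?_
    rintro p ⟨a, x, ha, hx, hp, hX, hP, hval⟩
    exact ⟨a, x, ha, hx, hp, hX, hP, val_of hx hval⟩

end Pool.Agent.Results.MP_dc0411_ag.GeneralComplements
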