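import Pool.Agent.Run7.h177.PG.Gen

/-!
# The Lang–Vojta equivalence for projective varieties whose symmetric differentials generate a symmetric
# power of the cotangent sheaf

`X = {F = 0}` is a complex projective variety (or scheme), of any dimension, possibly singular, such
that finitely many regular symmetric differentials `s j` of one degree `m > 0` generate `Sᵐ Ω` on `X`
(`SymForm`, `Generates`, `Pool/Agent/Run7/h418`). For example `X` is smooth and `Sᵐ Ω` is generated by
global sections, or `X` is a closed subvariety of such a variety.

The conditions of the problem: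

* (1) `BrodyHyperbolic`: every holomorphic map from the complex plane to `X` is constant;
* (2) `AllSubGeneral`: all closed subvarieties of `X` of positive dimension are of general type;
* (3) `FinitePointed`: for all smooth projective curves `C` (with function field `L`), points `c` of `C`
  and `x` of `X` there are only finitely many morphisms `C → X` mapping `c` to `x` (as `X` is
  projective, morphisms from a quasi-projective smooth curve to `X` extend to the projective one).

Theorem.

1. (1) and (2) are equivalent, and (3) implies them.
2. Let `Z = {Q = 0}` be a closed subset such that (3) holds for all points `x` of `X` not in `Z`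
   (`FinMaps`). Then all nonconstant entire curves in `X` and all images of nonconstant holomorphic
   maps from complex tori to `X` lie in `Z`, and all closed subvarieties of `X` of positive dimension
   which are not contained in `Z` are of general type.

For projective `X`, (1) implies (3) by a theorem of Urata (not in the Lean).

The proof. By the theorems of helper418 (`Pool/Agent/Run7/h418`, on all entire curves
`Pool/Agent/Run7/h418/E`, with pieces by helper177, helper711, helper83, helper847, helper712,
helper283, helper576 and helper941) it is enough that an immersed complex torus in `X` which is not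
contained in `Z` gives infinitely many morphisms from a pointed curve. Near a fixed point the
multiplication by `2` is given by rational functions on an algebraic variety `V` (project TA,
`Pool/Agent/Run7/h177/TA`, with helpers 160, 588, 711, 811, 824, 862, 939, 973); restricted to a curve
in `V` through the fixed point the iterates give infinitely many morphisms from this curve to `X`, with
the same value at the fixed point (`Pool/Agent/Run7/h177/PG`).
-/

set_option autoImplicit false

open Pool.Agent.W602.GT Pool.Agent.N155 Run7.h418 Pool.Agent.TH182.TC Run7.h177.PG FF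

namespace Pool.Agent.Results.MP_dc0411_ag.GeneratedDifferentials

/-- Condition (3): for all pointed curves `(C, c)` and all points `x` of `X = {F = 0}` there are only
finitely many morphisms from `C` to `X` which map `c` to `x`. -/
def FinitePointed {n : ℕ} {ι : Type} (F : ι → MvPolynomial (Fin (n + 1)) ℂ) : Prop :=
  ∀ (L : Type) [Field L] [Algebra ℂ L] [IsFF ℂ L] (c : Place ℂ L), ∀ x ∈ Cone F,
    (Maps F c x).Finite

/-- **The Lang–Vojta equivalence for varieties with a generated symmetric power of the cotangent
sheaf.** -/
theorem result {n m : ℕ} {ι τ : Type} [Fintype τ] {F : ι → MvPolynomial (Fin (n + 1)) ℂ}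
    (hF : ∀ i, IsForm (F i)) (hm : 0 < m)
    {s : τ → (Fin (n + 1) → ℂ) → (Fin (n + 1) → ℂ) → ℂ} (hs : ∀ j, SymForm F m (s j))
    (hgen : Generates F m s) :
    (BrodyHyperbolic F ↔ AllSubGeneral F) ∧
    (FinitePointed F → BrodyHyperbolic F ∧ AllSubGeneral F) ∧
    ∀ (κ : Type) (Q : κ → MvPolynomial (Fin (n + 1)) ℂ), (∀ j, IsForm (Q j)) → FinMaps F Q →
      (∀ p : ℂ → PS n, HolMap p → (∀ z, (p z).rep ∈ Cone F) → (∃ z w, p z ≠ p w) →
        ∀ j z, MvPolynomial.eval (p z).rep (Q j) = 0) ∧
      (∀ (q : ℕ) (b : Module.Basis (Fin (2 * q)) ℝ (Fin q → ℂ)) (g : (Fin q → ℂ) → PS n),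
        Holo g → (∀ t, OnX F (g t)) → (∀ t i, g (t + b i) = g t) → (∃ t t', g t ≠ g t') →
          ∀ j t, MvPolynomial.eval (g t).rep (Q j) = 0) ∧
      ∀ (K : Type) [Field K] [Algebra ℂ K] (w : ℕ) (y : Fin (n + 1) → K), 1 ≤ w →
        SubVar F K w y → (∃ j, val y (Q j) ≠ 0) → GeneralType ℂ K w := by
  have h1 := R.brody_iff hF hm hs hgen
  refine ⟨h1, fun h => ?_, fun κ Q hQ hfin => ⟨fun p hp hpF hne j z =>
    ent_zero hF hQ hfin hm hs hgen hp hpF hne j z, fun q b g hg hX hper hne j t =>
    tor_zero hF hQ hfin hm hs hgen b hg hX hper hne j t, fun K _ _ w y hw hy hyQ =>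
    general_off hF hQ hfin hm hs hgen hw hy hyQ⟩⟩
  have h2 : AllSubGeneral F := fun K _ _ w y hw hy =>
    general_off hF (Q := fun _ : Unit => 1) (fun _ => ⟨0, MvPolynomial.isHomogeneous_one _ _⟩)
      (fun L _ _ _ c x hx _ => h L c x hx) hm hs hgen hw hy ⟨(), by
        unfold Pool.Agent.W602.GT.val
        rw [map_one]
        exact one_ne_zero⟩
  exact ⟨h1.2 h2, h2⟩

end Pool.Agent.Results.MP_dc0411_ag.GeneratedDifferentials
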