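import Pool.Agent.Run7.h493.SR.All

/-!
MP_dc0411_ag, Q1: the equivalence of the three notions of hyperbolicity, for projective surfaces whose
function fields contain the roots of high order of the quotients of at least `n + 2` Zariski-general
forms, of any degrees, on an arbitrary projective variety of dimension `n`.

Let `V` be a closed subset of the complex projective space `ℙ ^ M`, of dimension at most `n`; it may
be singular or reducible. Let `q ≥ n + 2`, and let `d_1, …, d_q` be positive integers of which at
most `2 (q - n - 1)` are equal to one (for example: all `d_b ≥ 2`).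

THEOREM. There are a nonzero polynomial `Φ` in the coefficients of `q` forms of degrees
`d_1, …, d_q`, and a number `m₀`, with the following property. Let `F_1, …, F_q` be forms of degrees
`d_1, …, d_q` such that `Φ (F) ≠ 0`, and let `m ≥ m₀`. Let `K` be the function field of a surface, and
let `v` be a generically finite rational map from the surface to `V` (a point `v` of `V` over `K` such
that `K` is algebraic over the field generated by the ratios of the coordinates of `v`), whose image is
not contained in one of the hypersurfaces `F_b = 0`, such that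

* the field `K` contains `m`-th roots of the rational functions `F_b (v) ^ {d_c} / F_c (v) ^ {d_b}`.

Let `X` be any projective surface with the function field `K`, smooth or singular. Then `X` is of
general type, and the following are equivalent:

(1) `X` is Brody hyperbolic;
(2) every closed subvariety of positive dimension of `X` is of general type;
(3) for every smooth projective curve `C`, every point `c` of `C` and every point `a` of `X` the
  morphisms `f : C → X` with `f (c) = a` are finite in number;
(4) `X` is Kobayashi hyperbolic;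
(5) `X` is algebraically hyperbolic: the degree of the nonconstant maps from a curve of genus `g` to
  `X` is at most `A (2 g - 2)` for a constant `A`;
(6) all meromorphic maps from the spaces `ℂ ^ g` to `X` are constant;
(7) all morphisms from elliptic curves to `X` are constant;
(8) there is no curve of geometric genus at most one in `X`.

Moreover there are only finitely many curves of geometric genus at most one in `X`, and the Zariski
closure of every entire curve in `X` is one of them.

The conditions (1), (2), (3) are those of the problem: `X` is projective, so log general type is general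
type for its closed subvarieties, and the morphisms to `X` from a smooth quasi-projective curve extend
to the smooth projective curve which contains it. The conditions can hold and can fail: the surfaces with
the function field `K` can contain curves of genus `0` and `1`, for example if `X` is a blowing up. The
condition on `X` is a condition on its function field only; the numbers `m₀` and the polynomial `Φ`
depend only on `V` and the degrees.

The proof. Entire curves: they are contained in algebraic curves by the second main theorem, truncated to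
level one and with a constant which depends only on `V` and the degrees, of `Pool/Agent/Run7/h493/TS`
(see `Pool.Agent.Results.MP_579abc_ag.TruncatedSecondMain`); see
`Pool.Agent.Results.MP_45e720_ag.SurfacesWithRoots`. Subvarieties and degrees: the roots specialise to the
closed subvarieties, and to the curves, which are not contained in a proper closed subset
(`Run7.h493.SR.exists_under`), and there the criterion for log general type `Run7.h789.RC.lgt_cover` and
the height inequality `Run7.h789.RC.hgt_main` are applied. The finitely many other curves, the theorems on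
curves of genus `≤ 1`, the pointed maps, and Brody's theorem for projective varieties are those of the
starting files `Pool/Agent/Q103/SF` (with `Q24`, `Q95`, `Q96`, `Q111`, `Q239`, `Q285`).

The definitions `BrodyHyp`, `AllGeneral`, `GeomHyp`, `KobayashiHyp`, `AlgHyp`, `NoMero`, `NoElliptic`,
`lowCurves` (`Pool/Agent/Q103/SF/Defs.lean`, `Pool/Agent/Q103/SF/Defs2.lean`) are those of the starting
files.
-/

set_option autoImplicit false

namespace Pool.Agent.Results.MP_dc0411_ag.SurfacesWithRoots

open MvPolynomial
open Pool.Agent.W602.GT (GeneralType coords IsForm)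
open Pool.Agent.Q103.SF (van vanOn lowCurves KobayashiHyp BrodyHyp NoMero NoElliptic AlgHyp
  AllGeneral GeomHyp)
open Pool.Agent.Y221.BD (EntireCurve)

variable {M n q : ℕ}

/-- The closed subset of `ℙ ^ M` given by the forms in `V` has dimension at most `n`: there are
`n + 1` linear forms without common zero on it. -/
def DimLE (V : Set (MvPolynomial (Fin (M + 1)) ℂ)) (n : ℕ) : Prop :=
  ∃ ℓ : Fin (n + 1) → MvPolynomial (Fin (M + 1)) ℂ, (∀ j, (ℓ j).IsHomogeneous 1) ∧
    ∀ y : Fin (M + 1) → ℂ, (∀ H ∈ V, eval y H = 0) → (∀ j, eval y (ℓ j) = 0) → y = 0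

/-- The numerical condition. -/
def Degrees (n : ℕ) {q : ℕ} (d : Fin q → ℕ) : Prop :=
  (∀ b, 1 ≤ d b) ∧ n + 2 ≤ q ∧ (Finset.univ.filter fun b => d b = 1).card ≤ 2 * (q - n - 1)

/-- The indices of the coefficients of `q` forms of degrees `d b` in `M + 1` variables. -/
abbrev Index (M : ℕ) {q : ℕ} (d : Fin q → ℕ) : Type :=
  (b : Fin q) × {β : Fin (M + 1) →₀ ℕ // β.degree = d b}

/-- `F` is a family of forms of degrees `d b`, and `Φ (F) ≠ 0`. -/
def General {d : Fin q → ℕ} (Φ : MvPolynomial (Index M d) ℂ)
    (F : Fin q → MvPolynomial (Fin (M + 1)) ℂ) : Prop :=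
  (∀ b, (F b).IsHomogeneous (d b)) ∧ eval (fun s : Index M d => coeff s.2.1 (F s.1)) Φ ≠ 0

/-- `v` is a point over `K` of the closed subset of `ℙ ^ M` given by the forms in `V`: a rational map
to `V` from the varieties with the function field `K`. It is generically finite onto its image. -/
structure GenericallyFinite (V : Set (MvPolynomial (Fin (M + 1)) ℂ)) {K : Type} [Field K]
    [Algebra ℂ K] (v : Fin (M + 1) → K) : Prop where
  ne : v ≠ 0
  mem : ∀ H ∈ V, aeval v H = 0
  alg : Algebra.IsAlgebraic (coords ℂ v) K

/-- The field `K` contains `m`-th roots of the rational functions `F b ^ d c / F c ^ d b` at the point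
`v`. -/
def ContainsRoots (d : Fin q → ℕ) (F : Fin q → MvPolynomial (Fin (M + 1)) ℂ) (m : ℕ) {K : Type}
    [Field K] [Algebra ℂ K] (v : Fin (M + 1) → K) : Prop :=
  ∀ b c, ∃ ρ : K, ρ ^ m * aeval v (F c) ^ d b = aeval v (F b) ^ d c

/-- Let `V` be a closed subset of the projective space `ℙ ^ M`, of dimension at most `n`, and let
`d b` be degrees which satisfy the numerical condition. There are a number `m₀` and a nonzero
polynomial `Φ` such that for all forms `F b` of degrees `d b` with `Φ (F) ≠ 0`, all `m ≥ m₀`, all
function fields `K` of surfaces, and all generically finite rational maps `v` to `V` with an image which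
is not contained in a hypersurface `F b = 0`, such that `K` contains `m`-th roots of the rational
functions `F b (v) ^ d c / F c (v) ^ d b`: `K` is of general type, and for every projective surface
`X ⊆ ℙ ^ N` with the function field `K` and the generic point `x`, the Zariski closure of every entire
curve in `X` is a curve of geometric genus at most one, there are only finitely many such curves in `X`,
and the following are equivalent: `X` is Brody hyperbolic; all closed subvarieties of positive dimension of `X` are of general type; the pointed maps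
from pointed curves to `X` are finite in number; `X` is Kobayashi hyperbolic; `X` is algebraically
hyperbolic; all meromorphic maps from the spaces `ℂ ^ g` to `X` are constant; all morphisms from elliptic
curves to `X` are constant; there is no curve of geometric genus at most one in `X`. -/
theorem result (V : Set (MvPolynomial (Fin (M + 1)) ℂ)) (hV : ∀ H ∈ V, ∃ e, H.IsHomogeneous e)
    (hn : DimLE V n) (d : Fin q → ℕ) (hd : Degrees n d) :
    ∃ (m₀ : ℕ) (Φ : MvPolynomial (Index M d) ℂ), Φ ≠ 0 ∧
      ∀ F : Fin q → MvPolynomial (Fin (M + 1)) ℂ, General Φ F → ∀ m, m₀ ≤ m →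
      ∀ (K : Type) [Field K] [Algebra ℂ K] (v : Fin (M + 1) → K), Algebra.trdeg ℂ K = (2 : ℕ) →
        GenericallyFinite V v → (∀ b, aeval v (F b) ≠ 0) → ContainsRoots d F m v →
        GeneralType ℂ K 2 ∧ ∀ (N : ℕ) (x : Fin (N + 1) → K), x ≠ 0 → coords ℂ x = ⊤ →
          (∀ f, EntireCurve x f → vanOn Set.univ (fun t i => f i t) ∈ lowCurves x) ∧
          (lowCurves x).Finite ∧
          List.TFAE [BrodyHyp x, AllGeneral x, GeomHyp x, KobayashiHyp x, AlgHyp x, NoMero x,
            NoElliptic x, lowCurves x = ∅] := by
  classical
  obtain ⟨ℓ, hℓ, hZ⟩ := hn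
  have hN : Pool.Agent.NH29.GN.NoZero V ℓ := Pool.Agent.NH29.GN.Fn.noZero_of_points (K := ℂ) hZ
  obtain ⟨hd1, hd2, hd3⟩ := hd
  have hnum : ∀ C : Finset (Fin q), C ≠ Finset.univ → Pool.Agent.NH29.GN.Num2 n d C :=
    fun C hC => Pool.Agent.NH29.GN.Fn.num_of_few hd1 hd2 (by omega) C hC
  obtain ⟨r, rfl⟩ : ∃ r, q = r + 1 := ⟨q - 1, by omega⟩
  obtain ⟨Φ₀, h1, h2⟩ := Run7.h493.TS.exists_allNB ℂ hV hℓ hN hd1 (by omega) hnum
  obtain ⟨Φ₁, mm, hΦ₁, hmm, hAll⟩ := Run7.h493.TS.exists_multi h1 h2
  obtain ⟨m₁, hm₁⟩ := Run7.h493.TS.orb hmm hAll
  obtain ⟨B, ι, Φ₂, hΦ₂, hsys⟩ := Pool.Agent.Run7.h789.RC.exists_sys (d := d) hV hℓ hN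
    (by omega) hd1 hnum
  obtain ⟨Φ₃, hΦ₃, A₀, μ, hht⟩ := Pool.Agent.Run7.h789.RC.hgt_main hV hℓ hN (by omega) hd1 hnum
  refine ⟨(m₁ + (Run7.h34.UG.mm r B + μ)) * ∑ b, d b, Φ₁ * (Φ₂ * Φ₃),
    mul_ne_zero hΦ₁ (mul_ne_zero hΦ₂ hΦ₃), fun F hF m hm K _ _ v htr hv hne hroot => ?_⟩
  have hF0 := hF.2
  rw [map_mul, map_mul] at hF0
  have hF1 := left_ne_zero_of_mul hF0
  have hF2 := left_ne_zero_of_mul (right_ne_zero_of_mul hF0)
  have hF3 := right_ne_zero_of_mul (right_ne_zero_of_mul hF0)
  have hm1 : m₁ * ∑ b, d b ≤ m := le_trans (Nat.mul_le_mul_right _ (Nat.le_add_right _ _)) hm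
  have hm2 : (Run7.h34.UG.mm r B + μ) * ∑ b, d b ≤ m :=
    le_trans (Nat.mul_le_mul_right _ (Nat.le_add_left _ _)) hm
  have hm3 : Run7.h34.UG.mm r B * ∑ b, d b ≤ m :=
    le_trans (Nat.mul_le_mul_right _ (Nat.le_add_right _ _)) hm2
  obtain ⟨F', S⟩ := hsys (fun s => coeff s.2.1 (F s.1)) hF2
  have htF : ∀ (L : Type) [Field L] [Algebra ℂ L] (u : Fin (M + 1) → L) b,
      Pool.Agent.NH29.GN.fv (K := ℂ) (L := L)
        (fun s : Pool.Agent.NH29.GN.Idx M d => coeff s.2.1 (F s.1)) u b = aeval u (F b) :=
    fun L _ _ u b => Run7.h493.SR.fv_eq hF.1 u b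
  obtain ⟨j, hj⟩ := Function.ne_iff.1 hv.ne
  have hj : v j ≠ 0 := hj
  have hGT : GeneralType ℂ K 2 := by
    refine Run7.h493.TS.gt_of_roots S (x := v) hv.ne (fun H hH => hv.mem H hH) (by norm_num) htr
      hv.alg (m := m) hm3 fun b c => ?_
    rw [htF K, htF K]
    exact hroot b c
  -- the rational map is not constant
  have hnc : ∃ i j, v j ≠ 0 ∧ ∀ c : ℂ, v i ≠ c • v j := by
    by_contra hcon
    push Not at hcon
    have h3 : coords ℂ v = ⊥ := by
      rw [eq_bot_iff]
      unfold Pool.Agent.W602.GT.coords
      rw [IntermediateField.adjoin_le_iff]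
      rintro _ ⟨i, j, hj, rfl⟩
      obtain ⟨c, hc⟩ := hcon i j hj
      rw [hc, Algebra.smul_def, mul_div_cancel_right₀ _ hj]
      exact IntermediateField.algebraMap_mem _ c
    have h4 := hv.alg
    rw [h3] at h4
    have h5 : Algebra.IsAlgebraic ℂ K := Algebra.IsAlgebraic.trans ℂ (⊥ : IntermediateField ℂ K) K
    have h6 : Algebra.trdeg ℂ K = 0 := trdeg_eq_zero_iff.2 h5
    rw [htr] at h6
    norm_num at h6
  refine ⟨hGT, fun N x hx hgen => ?_⟩
  have hlow : ∀ f, EntireCurve x f → vanOn Set.univ (fun t i => f i t) ∈ lowCurves x := by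
    intro f hf
    obtain ⟨Q, hQ, hQx, hQf⟩ := Run7.h493.SR.degenerate hV hd1 hAll hm₁ hF.1 hF1 hm1 hv.mem hnc hne
      hroot hgen hf
    exact Run7.h493.SR.entire_low Pool.Agent.Q285.SFG.t_gpc htr hx hgen hQ hQx hf hQf
  obtain ⟨R, hR⟩ := Run7.h493.SR.exists_weakHyp hV hF.1 S htF
    (fun L _ _ _ u hu huV hc => hht ℂ L _ hF3 u hu huV hc) hm2 hv.mem ⟨j, hj⟩ hne hroot hv.alg hx
    hgen
  exact ⟨hlow, Run7.h493.SR.tfae_all htr hx hgen hR hlow⟩

end Pool.Agent.Results.MP_dc0411_ag.SurfacesWithRoots
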